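import Pool.Agent.PK.Red
import Pool.Agent.PK.Asym
import Pool.Agent.PK.SlotStep
import Pool.Agent.H10.PK.Order

/-!
# List packing and correspondence packing: the asymptotic values

The numbers `a(k)`, `b(k)` of the problem are asymptotic to `k`, and the maximum list packing
number and the maximum correspondence packing number of the finite graphs of maximum average
degree less than `a` are asymptotic to `a`.
-/

namespace Pool.Agent.Results.MP_6af60b_co.Asymptotic

open Filter Topology
open Pool.Agent.H24.LP Pool.Agent.PK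

/-- The maxima `a(k)` and `b(k)` exist for every `k ≥ 1`, and `a(k) / k → 1`, `b(k) / k → 1`;
the maximum list packing number and the maximum correspondence packing number of the finite graphs
of maximum average degree less than `a` exist for every `a`, and both are asymptotic to `a` as
`a → ∞`; for every `ε > 0` and every sufficiently large `k`, every `k`-cover and every
`k`-list-assignment of every finite graph of maximum average degree less than `(1 - ε) k` has a
packing. -/
theorem result :
    (∀ k : ℕ, 1 ≤ k → IsGreatest {a : ℝ | ∀ m ∈ valuesL a, m ≤ k} (aList k) ∧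
      IsGreatest {a : ℝ | ∀ m ∈ valuesC a, m ≤ k} (bCorr k)) ∧
    Tendsto (fun k : ℕ => aList k / k) atTop (𝓝 1) ∧
    Tendsto (fun k : ℕ => bCorr k / k) atTop (𝓝 1) ∧
    (∀ a : ℝ, IsGreatest (valuesL a) (maxL a) ∧ IsGreatest (valuesC a) (maxC a)) ∧
    Tendsto (fun a : ℝ => (maxL a : ℝ) / a) atTop (𝓝 1) ∧
    Tendsto (fun a : ℝ => (maxC a : ℝ) / a) atTop (𝓝 1) ∧
    (∀ ε : ℝ, 0 < ε → ∃ k₀ : ℕ, ∀ k : ℕ, k₀ ≤ k → ∀ (V : Type) (_ : Finite V)
      (G : SimpleGraph V), MadLT G ((1 - ε) * k) → CorrPackable G k ∧ ListPackable G k) := by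
  have hs : SlotStepEx := fun ε D C ρ hε hε1 hD hC hρ =>
    slot_step ε hε hε1 D hD C hC ρ hρ
  have hF : FullPack := fun ε hε => packable_of hs ord hε
  refine ⟨fun k hk => ⟨isGreatest_aList hF hk, isGreatest_bCorr hF hk⟩, tendsto_aList hF,
    tendsto_bCorr hF, fun a => ⟨isGreatest_maxL hF a, isGreatest_maxC hF a⟩, tendsto_maxL hF,
    tendsto_maxC hF, ?_⟩
  intro ε hε
  obtain ⟨K0, hK0⟩ := hF ε hε
  refine ⟨K0, fun k hk V hV G h => ?_⟩
  have hc := corrPackable_of_perm (hK0 k hk V hV G h)
  exact ⟨hc, listPackable_of_corr hc⟩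

end Pool.Agent.Results.MP_6af60b_co.Asymptotic
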