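import Pool.Agent.H24.LP.Basic
import Pool.Agent.H97.PackE.Mad

/-!
# Packings of covers of graphs with maximum average degree less than `5k/9`

The definitions (`MadLT`, list packings, covers and their packings, the packing numbers) are in
`Pool.Agent.H24.LP.Defs`.
-/

namespace Pool.Agent.Results.MP_6af60b_co.FiveNinths

open Pool.Agent.H24.LP Pool.Agent.H97.PackE

lemma madLT_nb {V : Type} [Fintype V] {G : SimpleGraph V} {k : ℕ}
    (h : MadLT G (5 * k / 9)) (Y : Finset V) (hY : Y.Nonempty) :
    9 * ∑ v ∈ Y, nb G Y v < 5 * k * Y.card := by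
  classical
  have h1 := h ((⊤ : G.Subgraph).induce (Y : Set V)) (by simpa using hY)
  rw [sum_nb_eq]
  have h2 : ((⊤ : G.Subgraph).induce (Y : Set V)).verts.ncard = Y.card := by
    rw [SimpleGraph.Subgraph.induce_verts, Set.ncard_coe_finset]
  rw [h2] at h1
  have h3 : (9 : ℝ) * (2 * (((⊤ : G.Subgraph).induce (Y : Set V)).edgeSet.ncard : ℝ)) <
      5 * k * Y.card := by
    have h4 : (9 : ℝ) * (5 * (k : ℝ) / 9 * (Y.card : ℝ)) = 5 * k * Y.card := by ring
    linarith
  exact_mod_cast h3

lemma permPackable {V : Type} [Finite V] {G : SimpleGraph V} {k : ℕ} (hk : 1 ≤ k)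
    (h : MadLT G (5 * k / 9)) : PermPackable G k := by
  classical
  have := Fintype.ofFinite V
  intro s hs
  let C : Conf G k :=
    { R := fun u v i j => G.Adj u v ∧ s u v i = j
      adj := fun h => h.1
      symm := by
        intro u v i j h
        refine ⟨h.1.symm, ?_⟩
        rw [hs u v h.1, ← h.2]
        simp
      inj := by
        intro u v i j j' h1 h2
        rw [← h1.2, ← h2.2] }
  obtain ⟨p, hp⟩ := exists_packing C hk Finset.univ (fun Y _ hY => madLT_nb h Y hY)
  refine ⟨p, fun u v huv i hi => ?_⟩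
  exact hp u (Finset.mem_univ _) v (Finset.mem_univ _) i ⟨huv, hi⟩

/-- Every `k`-cover and every `k`-list-assignment of a finite graph of maximum average degree less
than `5k/9` has a packing. -/
theorem packable (k : ℕ) (hk : 1 ≤ k) {V : Type} [Finite V] (G : SimpleGraph V)
    (hG : MadLT G (5 * k / 9)) :
    CorrPackable G k ∧ ListPackable G k ∧ chiC G ≤ k ∧ chiL G ≤ k := by
  have h1 := corrPackable_of_perm (permPackable hk hG)
  exact ⟨h1, listPackable_of_corr h1, chiC_le hk h1, chiL_le hk h1⟩

/-- (1) For every positive integer `k`, every `k`-cover and every `k`-list-assignment of a finite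
graph with maximum average degree less than `5k/9` has a packing; in particular both packing numbers
are at most `k`.
(2) For every real `a > 0`, all correspondence packing numbers and all list packing numbers of
finite graphs with maximum average degree less than `a` are at most `⌈9a/5⌉`. -/
theorem result :
    (∀ (k : ℕ), 1 ≤ k → ∀ (V : Type) [Finite V] (G : SimpleGraph V), MadLT G (5 * k / 9) →
      CorrPackable G k ∧ ListPackable G k ∧ chiC G ≤ k ∧ chiL G ≤ k) ∧
    (∀ a : ℝ, 0 < a → (∀ m ∈ valuesC a, m ≤ ⌈9 * a / 5⌉₊) ∧ (∀ m ∈ valuesL a, m ≤ ⌈9 * a / 5⌉₊)) := by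
  refine ⟨fun k hk V _ G hG => packable k hk G hG, fun a ha => ?_⟩
  have hk : 1 ≤ ⌈9 * a / 5⌉₊ := Nat.one_le_ceil_iff.2 (by positivity)
  have h1 : 9 * a / 5 ≤ (⌈9 * a / 5⌉₊ : ℝ) := Nat.le_ceil _
  have key : ∀ (V : Type) [Finite V] (G : SimpleGraph V), MadLT G a →
      MadLT G (5 * (⌈9 * a / 5⌉₊ : ℝ) / 9) := by
    intro V _ G hG H hH
    refine lt_of_lt_of_le (hG H hH) ?_
    have h2 : (0 : ℝ) ≤ (H.verts.ncard : ℝ) := Nat.cast_nonneg _
    exact mul_le_mul_of_nonneg_right (by linarith) h2
  constructor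
  · rintro m ⟨V, hV, G, hG, rfl⟩
    exact (packable _ hk G (key V G hG)).2.2.1
  · rintro m ⟨V, hV, G, hG, rfl⟩
    exact (packable _ hk G (key V G hG)).2.2.2

end Pool.Agent.Results.MP_6af60b_co.FiveNinths
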