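import Pool.Agent.H24.LP.K5

/-!
# The threshold for four colours in correspondence packing is at most 18/5
-/

namespace Pool.Agent.Results.MP_6af60b_co.FourColours

open Pool.Agent.H24.LP

/-- For every real `a > 18/5` there is a finite graph with maximum average degree less than `a`
whose correspondence packing number is at least five; hence `b(4) ≤ 18/5`. -/
theorem result (a : ℝ) (ha : 18 / 5 < a) : ∃ m ∈ valuesC a, 5 ≤ m :=
  ⟨_, ⟨Fin 5, inferInstance, K5.graph, K5.madLT ha, rfl⟩, K5.five_le_chiC⟩

end Pool.Agent.Results.MP_6af60b_co.FourColours
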