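import Pool.Agent.H24.LP.Ear

/-!
# Exact list and correspondence packing numbers of the classes `mad < a`, `a ≤ 24/7`
-/

namespace Pool.Agent.Results.MP_6af60b_co.SmallRange

open Pool.Agent.H24.LP

/-- The value of both packing numbers of the class of graphs with maximum average degree less
than `a`, for `0 < a ≤ 24/7`. -/
noncomputable def value (a : ℝ) : ℕ := if a ≤ 1 then 1 else if a ≤ 2 then 2 else 4

lemma upper {a : ℝ} (ha : a ≤ 24 / 7) {V : Type} [Finite V] {G : SimpleGraph V}
    (h : MadLT G a) : CorrPackable G (value a) := by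
  unfold value
  split_ifs with h1 h2
  · exact corrPackable_of_perm (permPackable_one h1 h)
  · exact corrPackable_of_perm (permPackable_two h2 h)
  · exact corrPackable_of_perm (permPackable_four ha h)

lemma one_le_value (a : ℝ) : 1 ≤ value a := by
  unfold value
  split_ifs <;> norm_num

lemma not_listPackable_zero : ¬ ListPackable (⊤ : SimpleGraph (Fin 2)) 1 := by
  intro h
  obtain ⟨c, hc, -⟩ := h (fun _ => {0}) (fun _ => rfl)
  have h0 := (hc 0).1 0
  have h1 := (hc 0).1 1
  rw [Finset.mem_singleton] at h0 h1
  exact (hc 0).2 0 1 (by simp) (h0.trans h1.symm)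

lemma madLT_edge {a : ℝ} (ha : 1 < a) : MadLT (⊤ : SimpleGraph (Fin 2)) a := by
  apply madLT_of_load (ι := Unit) (fun _ => (0 : Fin 2)) (fun _ => (1 : Fin 2)) ?_
    (fun _ => 1 / 2) (by intro; norm_num) (by intro; norm_num)
  · intro v
    fin_cases v <;> simp <;> linarith
  · intro u v huv
    rw [SimpleGraph.top_adj] at huv
    refine ⟨(), ?_⟩
    revert huv
    revert u v
    decide

lemma exists_graph {a : ℝ} (ha0 : 0 < a) :
    ∃ (V : Type) (_ : Finite V) (G : SimpleGraph V), MadLT G a ∧
      (value a = 1 ∨ ¬ ListPackable G (value a - 1)) := by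
  by_cases h1 : a ≤ 1
  · refine ⟨Unit, inferInstance, ⊥, ?_, Or.inl (by simp [value, h1])⟩
    intro H hH
    have hE : H.edgeSet = ∅ := by
      ext e
      induction e using Sym2.ind with
      | _ u v =>
        simp only [SimpleGraph.Subgraph.mem_edgeSet, Set.mem_empty_iff_false, iff_false]
        intro h
        exact (H.adj_sub h)
    rw [hE, Set.ncard_empty]
    have : 0 < H.verts.ncard := (Set.ncard_pos (Set.toFinite _)).2 hH
    have h2 : (0 : ℝ) < H.verts.ncard := by exact_mod_cast this
    simp only [Nat.cast_zero, mul_zero]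
    positivity
  · by_cases h2 : a ≤ 2
    · refine ⟨Fin 2, inferInstance, ⊤, madLT_edge (by linarith [not_le.1 h1]), Or.inr ?_⟩
      have : value a = 2 := by simp [value, h1, h2]
      rw [this]
      exact not_listPackable_zero
    · obtain ⟨m, -, hm⟩ := Ear.madLT (not_le.1 h2)
      refine ⟨Ear.EV m, inferInstance, Ear.graph m, hm, Or.inr ?_⟩
      have : value a = 4 := by simp [value, h1, h2]
      rw [this]
      exact Ear.not_listPackable

/-- For every real `a` with `0 < a ≤ 24/7`, both the list packing number and the correspondence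
packing number of the class of finite graphs with maximum average degree less than `a` are equal
to `1` if `a ≤ 1`, to `2` if `1 < a ≤ 2`, and to `4` if `2 < a ≤ 24/7`. -/
theorem result (a : ℝ) (ha0 : 0 < a) (ha : a ≤ 24 / 7) :
    IsGreatest (valuesL a) (value a) ∧ IsGreatest (valuesC a) (value a) := by
  obtain ⟨V, hV, G, hG, hval⟩ := exists_graph ha0
  have hup := upper ha hG
  have hv1 := one_le_value a
  refine ⟨⟨⟨V, hV, G, hG, ?_⟩, ?_⟩, ⟨⟨V, hV, G, hG, ?_⟩, ?_⟩⟩
  · apply le_antisymm (chiL_le hv1 hup)
    rcases hval with h | h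
    · rw [h]
      exact one_le_chiL hv1 (listPackable_of_corr hup)
    · have := lt_chiL hv1 (listPackable_of_corr hup) h
      omega
  · rintro m ⟨V', hV', G', hG', rfl⟩
    exact chiL_le hv1 (upper ha hG')
  · apply le_antisymm (chiC_le hv1 hup)
    rcases hval with h | h
    · rw [h]
      exact one_le_chiC hv1 hup
    · have := lt_chiC hv1 hup h
      omega
  · rintro m ⟨V', hV', G', hG', rfl⟩
    exact chiC_le hv1 (upper ha hG')

end Pool.Agent.Results.MP_6af60b_co.SmallRange
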